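import Pool.Agent.N802.LX.Rat
import Pool.Agent.N786.D.Fin2
import Pool.Agent.TH803.UC.Dens
import Pool.Agent.H370R2.DirGood

/-!
# Selberg density theorem for the L-function of a primitive Dirichlet character
-/

set_option autoImplicit false

open NumberField Complex Filter Topology Set

namespace Pool.Agent.N802.LX

open Pool.Agent.N786 (pr pr_apply)
open Pool.Agent.Y773 (TPos LI)
open Pool.Agent.Y767
open H370 (Zf zset mult mem_Zf GoodL good_dirichlet zz zz_im)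

lemma pr_idn {q : ℕ} (hq : 1 < q) (χ : DirichletCharacter ℂ q) (n : ℕ) :
    pr (psi hq χ) one0 (idn n) = χ (n : ZMod q) := by
  rw [pr_apply, psi_idn]
  rcases Nat.eq_zero_or_pos n with h | h
  · rw [h, Nat.cast_zero, chi_zero hq, zero_mul]
  · have h1 : idn n ≠ ⊥ := by
      rw [← idn_zero]
      exact fun h2 => h.ne' (idn_inj h2)
    rw [one0_of h1, mul_one]

lemma root_ten {q T : ℝ} (hq : 1 ≤ q) (hT : 1 ≤ T) (h : q ^ 9 ≤ T) :
    (q * T) ^ (9 / 10 : ℝ) ≤ T := by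
  have h0 : 0 ≤ q * T := by positivity
  have e1 : (q * T) ^ (9 / 10 : ℝ) = ((q * T) ^ 9) ^ (1 / 10 : ℝ) := by
    rw [← Real.rpow_natCast, ← Real.rpow_mul h0]
    norm_num
  have e2 : T = (T ^ 10) ^ (1 / 10 : ℝ) := by
    rw [← Real.rpow_natCast, ← Real.rpow_mul (by linarith)]
    norm_num
  rw [e1]
  refine le_trans (Real.rpow_le_rpow (by positivity) ?_ (by norm_num)) e2.symm.le
  rw [mul_pow]
  calc q ^ 9 * T ^ 9 ≤ T * T ^ 9 := mul_le_mul_of_nonneg_right h (by positivity)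
    _ = T ^ 10 := by ring

/-- zeros to the right of the critical line, in one window -/
lemma dens_right {q : ℕ} [NeZero q] (hq : 1 < q) {χ : DirichletCharacter ℂ q}
    (hχ : χ.IsPrimitive) :
    ∃ A T0 : ℝ, 0 < A ∧ 10 ≤ T0 ∧ ∀ T : ℝ, T0 ≤ T → ∀ δ : ℝ, 0 ≤ δ → ∀ Z : Finset ℂ,
      (∀ z ∈ Z, 1 / 2 + δ ≤ z.re ∧ T ≤ z.im ∧ z.im ≤ 2 * T) →
      ∑ z ∈ Z, (mult (DirichletCharacter.LFunction χ) z : ℝ) ≤
        A * (T * Real.log T * Real.exp (-(1 / 2 * δ * Real.log T))) := by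
  obtain ⟨A, V₀, hA, hV₀, H⟩ := Pool.Agent.N786.D.dens_fam ℚ (9 / 10) (1 / 2) (by norm_num)
    (by norm_num) (by norm_num)
  refine ⟨2 * A + 1, max 10 (max V₀ ((q : ℝ) ^ 9)), by positivity, le_max_left _ _,
    fun T hT δ hδ Z hZ => ?_⟩
  have hT10 : 10 ≤ T := (le_max_left _ _).trans hT
  have hTV : V₀ ≤ T := ((le_max_left _ _).trans (le_max_right _ _)).trans hT
  have hTq : (q : ℝ) ^ 9 ≤ T := ((le_max_right _ _).trans (le_max_right _ _)).trans hT
  have hq1 : (1 : ℝ) ≤ q := by exact_mod_cast hq.le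
  have hqT : (q : ℝ) ≤ T := (le_self_pow₀ hq1 (by norm_num)).trans hTq
  have hT0 : 0 < T := by linarith
  have hfr : Module.finrank ℚ ℚ = 1 := Module.finrank_self ℚ
  have hN : (Ideal.absNorm (idn q * ⊤) : ℝ) = q := by rw [Ideal.mul_top, absNorm_idn]
  have hN1 : (Ideal.absNorm (⊤ : Ideal (𝓞 ℚ)) : ℝ) = 1 := by rw [Ideal.absNorm_top, Nat.cast_one]
  have hcond : ((Ideal.absNorm (idn q * ⊤) : ℝ) * T ^ Module.finrank ℚ ℚ) ^ (9 / 10 : ℝ) ≤
      (Ideal.absNorm (⊤ : Ideal (𝓞 ℚ)) : ℝ) * T ^ Module.finrank ℚ ℚ := by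
    rw [hN, hN1, hfr, pow_one, one_mul]
    exact root_ten hq1 (by linarith) hTq
  have hcop : IsCoprime (idn q) (⊤ : Ideal (𝓞 ℚ)) := by
    rw [← Ideal.one_eq_top]
    exact isCoprime_one_right
  have hntop : idn q * ⊤ ≠ (⊤ : Ideal (𝓞 ℚ)) := by
    rw [Ideal.mul_top]
    intro h
    have := congrArg Ideal.absNorm h
    rw [absNorm_idn, Ideal.absNorm_top] at this
    omega
  have hz : ∀ w : InfinitePlace ℚ, |(0 : InfinitePlace ℚ → ℝ) w| ≤ T := fun w => by
    rw [Pi.zero_apply, abs_zero]; linarith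
  have hs : ∑ w : InfinitePlace ℚ, (0 : InfinitePlace ℚ → ℝ) w = 0 := by simp
  have H' := H (idn q) ⊤ 0 (psi hq χ) T T (isHecke_psi hq hχ) hs hcop top_ne_bot hntop hTV le_rfl
    hz hcond {one0} (fun _ => DirichletCharacter.LFunction χ)
    (fun lam hl => by
      rw [Finset.mem_singleton] at hl
      subst hl
      exact ⟨0, hz, hs, isHecke_one⟩)
    (fun lam hl => by
      rw [Finset.mem_singleton] at hl
      subst hl
      exact ⟨DirichletCharacter.differentiable_LFunction (ne_one hq hχ),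
        fun s hs => LI_eq hq χ (pr_idn hq χ) hs⟩)
  have h3 := H'.2 T (by rw [abs_of_pos hT0]) δ hδ (fun _ => Z) (fun lam _ z hz' => by
    obtain ⟨a, b, c⟩ := hZ z hz'
    exact ⟨a, b, by linarith⟩)
  rw [Finset.sum_singleton, hN, hN1, hfr, pow_one, one_mul] at h3
  have hL : 0 < Real.log T := Real.log_pos (by linarith)
  have h4 : Real.log (q * T) ≤ 2 * Real.log T := by
    rw [Real.log_mul (by linarith) hT0.ne']
    have := Real.log_le_log (by linarith) hqT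
    linarith
  have h4' : 0 ≤ Real.log (q * T) := Real.log_nonneg (by nlinarith)
  have h5 : ((q : ℝ) * T) ^ (-(1 / 2 * δ)) ≤ Real.exp (-(1 / 2 * δ * Real.log T)) := by
    have h6 : ((q : ℝ) * T) ^ (-(1 / 2 * δ)) ≤ T ^ (-(1 / 2 * δ)) :=
      Real.rpow_le_rpow_of_nonpos hT0 (le_mul_of_one_le_left hT0.le hq1) (by linarith)
    refine h6.trans (le_of_eq ?_)
    rw [Real.rpow_def_of_pos hT0]
    congr 1
    ring
  have h7 : (0 : ℝ) ≤ ((q : ℝ) * T) ^ (-(1 / 2 * δ)) := by positivity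
  refine h3.trans ?_
  calc A * (T * Real.log (q * T) * ((q : ℝ) * T) ^ (-(1 / 2 * δ)))
      ≤ A * (T * (2 * Real.log T) * Real.exp (-(1 / 2 * δ * Real.log T))) := by
        refine mul_le_mul_of_nonneg_left ?_ hA
        exact mul_le_mul (mul_le_mul_of_nonneg_left h4 hT0.le) h5 h7 (by positivity)
    _ = (2 * A) * (T * Real.log T * Real.exp (-(1 / 2 * δ * Real.log T))) := by ring
    _ ≤ (2 * A + 1) * (T * Real.log T * Real.exp (-(1 / 2 * δ * Real.log T))) :=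
        mul_le_mul_of_nonneg_right (by linarith) (by positivity)

/-- the zeros on both sides -/
lemma dens_both {F : ℂ → ℂ} (hF : GoodL F) {A T0 : ℝ} (hT0 : 10 ≤ T0)
    (h : ∀ T : ℝ, T0 ≤ T → ∀ δ : ℝ, 0 ≤ δ → ∀ Z : Finset ℂ,
      (∀ z ∈ Z, 1 / 2 + δ ≤ z.re ∧ T ≤ z.im ∧ z.im ≤ 2 * T) →
      ∑ z ∈ Z, (mult F z : ℝ) ≤ A * (T * Real.log T * Real.exp (-(1 / 2 * δ * Real.log T))))
    {T : ℝ} (hT : T0 ≤ T) {δ : ℝ} (hδ : 0 ≤ δ) (Z : Finset ℂ)
    (hZ : ∀ z ∈ Z, z ∈ zset F T (2 * T) ∧ δ ≤ |z.re - 1 / 2|) :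
    ∑ z ∈ Z, (mult F z : ℝ) ≤
      2 * A * (T * Real.log T * Real.exp (-(1 / 2 * δ * Real.log T))) := by
  classical
  have hinj : Function.Injective fun z : ℂ => 1 - (starRingEnd ℂ) z := by
    intro z w hzw
    simp only at hzw
    have h1 : (starRingEnd ℂ) z = (starRingEnd ℂ) w := by linear_combination -hzw
    exact (starRingEnd ℂ).injective h1
  have h1 := h T hT δ hδ (Z.filter fun z => 1 / 2 ≤ z.re) (by
    intro z hz
    obtain ⟨c1, c2⟩ := Finset.mem_filter.mp hz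
    obtain ⟨⟨d1, d2, d3, d4, d5⟩, d6⟩ := hZ z c1
    rw [abs_of_nonneg (by linarith)] at d6
    exact ⟨by linarith, d3.le, d4⟩)
  have h2 := h T hT δ hδ ((Z.filter fun z => ¬ 1 / 2 ≤ z.re).image
    fun z => 1 - (starRingEnd ℂ) z) (by
    intro z hz
    obtain ⟨w, hw, rfl⟩ := Finset.mem_image.mp hz
    obtain ⟨c1, c2⟩ := Finset.mem_filter.mp hw
    obtain ⟨⟨d1, d2, d3, d4, d5⟩, d6⟩ := hZ w c1
    push Not at c2
    rw [abs_of_neg (by linarith)] at d6
    simp only [Complex.sub_re, Complex.one_re, Complex.conj_re, Complex.sub_im, Complex.one_im,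
      Complex.conj_im]
    exact ⟨by linarith, by linarith, by linarith⟩)
  rw [Finset.sum_image fun x _ y _ hxy => hinj hxy] at h2
  have h3 : ∑ z ∈ Z.filter (fun z => ¬ 1 / 2 ≤ z.re), (mult F (1 - (starRingEnd ℂ) z) : ℝ) =
      ∑ z ∈ Z.filter (fun z => ¬ 1 / 2 ≤ z.re), (mult F z : ℝ) := by
    refine Finset.sum_congr rfl fun z hz => ?_
    obtain ⟨c1, c2⟩ := Finset.mem_filter.mp hz
    obtain ⟨⟨d1, d2, d3, d4, d5⟩, d6⟩ := hZ z c1
    unfold mult analyticOrderNatAt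
    rw [hF.symm z d1 d2 (by linarith)]
  rw [h3] at h2
  rw [← Finset.sum_filter_add_sum_filter_not Z (fun z => 1 / 2 ≤ z.re)]
  linarith

/-- a density theorem of Selberg strength gives bounded exponential moments -/
lemma dens_of {F : ℂ → ℂ} (hF : GoodL F) {A T0 : ℝ} (hA : 0 < A) (hT0 : 10 ≤ T0)
    (h : ∀ T : ℝ, T0 ≤ T → ∀ δ : ℝ, 0 ≤ δ → ∀ Z : Finset ℂ,
      (∀ z ∈ Z, 1 / 2 + δ ≤ z.re ∧ T ≤ z.im ∧ z.im ≤ 2 * T) →
      ∑ z ∈ Z, (mult F z : ℝ) ≤ A * (T * Real.log T * Real.exp (-(1 / 2 * δ * Real.log T)))) :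
    TH803UC.Dens F := by
  classical
  have hq : Real.exp (-(1 / 4 : ℝ)) < 1 := Real.exp_lt_one_iff.2 (by norm_num)
  refine ⟨1 / 4, 2 * A * Real.exp (1 / 4) / (1 - Real.exp (-(1 / 4))), T0, by norm_num,
    div_pos (by positivity) (by linarith), hT0, fun T hT => ?_⟩
  have hT10 : 10 ≤ T := hT0.trans hT
  have hTp : 0 < T := by linarith
  obtain ⟨L, hL⟩ : ∃ L : ℝ, L = Real.log T := ⟨_, rfl⟩
  have hL0 : 0 < L := by rw [hL]; exact Real.log_pos (by linarith)
  rw [← hL]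
  obtain ⟨S, hS⟩ : ∃ S : Finset ℂ, S = Zf F T (2 * T) := ⟨_, rfl⟩
  rw [← hS]
  have hmem : ∀ s ∈ S, s ∈ zset F T (2 * T) := fun s hs => by
    rwa [hS, mem_Zf hF (by linarith)] at hs
  obtain ⟨nn, hnn⟩ : ∃ nn : ℂ → ℕ, nn = fun s => ⌊|s.re - 1 / 2| * L⌋₊ := ⟨_, rfl⟩
  have hn1 : ∀ s, (nn s : ℝ) ≤ |s.re - 1 / 2| * L := fun s => by
    rw [hnn]; exact Nat.floor_le (by positivity)
  have hn2 : ∀ s, |s.re - 1 / 2| * L < (nn s : ℝ) + 1 := fun s => by
    rw [hnn]; exact Nat.lt_floor_add_one _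
  have hmaps : ∀ s ∈ S, nn s ∈ Finset.range (⌊L⌋₊ + 1) := by
    intro s hs
    obtain ⟨g1, g2, -, -, -⟩ := hmem s hs
    rw [Finset.mem_range, Nat.lt_succ_iff, hnn]
    refine Nat.floor_le_floor ?_
    have hx1 : |s.re - 1 / 2| ≤ 1 := by rw [abs_le]; constructor <;> linarith
    calc |s.re - 1 / 2| * L ≤ 1 * L := mul_le_mul_of_nonneg_right hx1 hL0.le
      _ = L := one_mul L
  have hcl : ∀ k : ℕ, ∑ s ∈ S.filter (fun s => nn s = k), (mult F s : ℝ) ≤
      2 * A * (T * L) * Real.exp (-(1 / 2 * k)) := by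
    intro k
    have h1 := dens_both hF hT0 h hT (δ := k / L) (by positivity)
      (S.filter (fun s => nn s = k)) (fun z hz => by
        obtain ⟨c1, c2⟩ := Finset.mem_filter.mp hz
        refine ⟨hmem z c1, ?_⟩
        rw [div_le_iff₀ hL0]
        have := hn1 z
        rwa [c2] at this)
    refine h1.trans (le_of_eq ?_)
    rw [← hL]
    have e : 1 / 2 * ((k : ℝ) / L) * L = 1 / 2 * k := by field_simp
    rw [e]
    ring
  calc ∑ s ∈ S, (mult F s : ℝ) * Real.exp (1 / 4 * (|(zz s).im| * L))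
      = ∑ k ∈ Finset.range (⌊L⌋₊ + 1), ∑ s ∈ S.filter (fun s => nn s = k),
          (mult F s : ℝ) * Real.exp (1 / 4 * (|(zz s).im| * L)) :=
        (Finset.sum_fiberwise_of_maps_to hmaps _).symm
    _ ≤ ∑ k ∈ Finset.range (⌊L⌋₊ + 1), ∑ s ∈ S.filter (fun s => nn s = k),
          (mult F s : ℝ) * Real.exp (1 / 4 * ((k : ℝ) + 1)) := by
        refine Finset.sum_le_sum fun k _ => Finset.sum_le_sum fun s hs => ?_
        obtain ⟨c1, c2⟩ := Finset.mem_filter.mp hs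
        refine mul_le_mul_of_nonneg_left (Real.exp_le_exp.2 ?_) (Nat.cast_nonneg _)
        rw [zz_im, abs_neg]
        have := hn2 s
        rw [c2] at this
        linarith
    _ ≤ ∑ k ∈ Finset.range (⌊L⌋₊ + 1),
          2 * A * (T * L) * Real.exp (1 / 4) * Real.exp (-(1 / 4)) ^ k := by
        refine Finset.sum_le_sum fun k _ => ?_
        rw [← Finset.sum_mul]
        calc (∑ s ∈ S.filter (fun s => nn s = k), (mult F s : ℝ)) *
              Real.exp (1 / 4 * ((k : ℝ) + 1)) ≤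
            (2 * A * (T * L) * Real.exp (-(1 / 2 * k))) * Real.exp (1 / 4 * ((k : ℝ) + 1)) :=
              mul_le_mul_of_nonneg_right (hcl k) (Real.exp_pos _).le
          _ = 2 * A * (T * L) * Real.exp (1 / 4) * Real.exp (-(1 / 4)) ^ k := by
              rw [mul_assoc, ← Real.exp_add, mul_assoc (2 * A * (T * L)), ← Real.exp_nat_mul,
                ← Real.exp_add]
              congr 2
              ring
    _ = 2 * A * (T * L) * Real.exp (1 / 4) *
          ∑ k ∈ Finset.range (⌊L⌋₊ + 1), Real.exp (-(1 / 4)) ^ k := by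
        rw [Finset.mul_sum]
    _ ≤ 2 * A * (T * L) * Real.exp (1 / 4) * (1 - Real.exp (-(1 / 4)))⁻¹ := by
        apply mul_le_mul_of_nonneg_left _ (by positivity)
        have h5 := (summable_geometric_of_lt_one (Real.exp_pos _).le hq).sum_le_tsum
          (Finset.range (⌊L⌋₊ + 1)) (fun i _ => pow_nonneg (Real.exp_pos _).le i)
        rwa [tsum_geometric_of_lt_one (Real.exp_pos _).le hq] at h5
    _ = _ := by
        rw [div_eq_mul_inv]
        ring

/-- **Density theorem for a primitive Dirichlet character.** -/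
theorem dens_chi {q : ℕ} [NeZero q] (hq : 1 < q) {χ : DirichletCharacter ℂ q}
    (hχ : χ.IsPrimitive) : TH803UC.Dens (DirichletCharacter.LFunction χ) := by
  obtain ⟨A, T0, hA, hT0, h⟩ := dens_right hq hχ
  exact dens_of (good_dirichlet χ hχ) hA hT0 h

end Pool.Agent.N802.LX
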