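import Pool.Agent.Y767.HC.Defs

/-!
# Dirichlet characters as Hecke characters of `ℚ`
-/

set_option autoImplicit false

open NumberField Complex Filter Topology

namespace Pool.Agent.N802.LX

open Pool.Agent.Y773 (TPos LI)
open Pool.Agent.Y767

/-- the ideal `(n)` of the ring of integers of `ℚ` -/
noncomputable def idn (n : ℕ) : Ideal (𝓞 ℚ) := Ideal.span {(n : 𝓞 ℚ)}

lemma rank_one : Module.finrank ℤ (𝓞 ℚ) = 1 := by
  rw [RingOfIntegers.rank]
  exact Module.finrank_self ℚ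

lemma absNorm_idn (n : ℕ) : Ideal.absNorm (idn n) = n := by
  unfold idn
  rw [Ideal.absNorm_span_natCast, rank_one, pow_one]

lemma exists_idn (𝔞 : Ideal (𝓞 ℚ)) : ∃ n : ℕ, idn n = 𝔞 := by
  obtain ⟨f, hf⟩ : ∃ f : ℤ →+* 𝓞 ℚ, Function.Surjective f :=
    ⟨Rat.ringOfIntegersEquiv.symm.toRingHom, Rat.ringOfIntegersEquiv.symm.surjective⟩
  obtain ⟨z, hz⟩ := (IsPrincipalIdealRing.principal (𝔞.comap f)).principal
  refine ⟨z.natAbs, ?_⟩
  have h1 : (𝔞.comap f).map f = 𝔞 := Ideal.map_comap_of_surjective f hf 𝔞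
  have h2 : 𝔞.comap f = Ideal.span {(z.natAbs : ℤ)} := by
    rw [Int.span_natAbs]
    exact hz
  rw [← h1, h2, Ideal.map_span, Set.image_singleton, map_natCast]
  rfl

lemma idn_inj {a b : ℕ} (h : idn a = idn b) : a = b := by
  have := congrArg Ideal.absNorm h
  rwa [absNorm_idn, absNorm_idn] at this

lemma idn_zero : idn 0 = ⊥ := by
  unfold idn
  rw [Nat.cast_zero, Ideal.span_singleton_eq_bot]

lemma ex_int (x : 𝓞 ℚ) : ∃ z : ℤ, x = (z : 𝓞 ℚ) := by
  refine ⟨Rat.ringOfIntegersEquiv x, ?_⟩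
  have h := map_intCast Rat.ringOfIntegersEquiv.symm (Rat.ringOfIntegersEquiv x)
  rw [Int.cast_id] at h
  rw [← h, RingEquiv.symm_apply_apply]

lemma tpos_iff (z : ℤ) : TPos ℚ (z : 𝓞 ℚ) ↔ 0 < z := by
  have e : (((z : 𝓞 ℚ)) : ℚ) = (z : ℚ) := by
    exact map_intCast (algebraMap (𝓞 ℚ) ℚ) z
  constructor
  · intro h
    have h1 := h (Rat.castHom ℝ)
    rw [e, map_intCast] at h1
    exact_mod_cast h1
  · intro h σ
    rw [e, map_intCast]
    exact_mod_cast h

lemma dvd_iff (a b : ℤ) : (a : 𝓞 ℚ) ∣ (b : 𝓞 ℚ) ↔ a ∣ b := by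
  rw [← map_dvd_iff Rat.ringOfIntegersEquiv, map_intCast, map_intCast, Int.cast_id, Int.cast_id]

lemma sub_one_mem_iff (z : ℤ) (d : ℕ) : (z : 𝓞 ℚ) - 1 ∈ idn d ↔ ((z : ℤ) : ZMod d) = 1 := by
  unfold idn
  rw [Ideal.mem_span_singleton]
  have e1 : ((z : 𝓞 ℚ) - 1) = ((z - 1 : ℤ) : 𝓞 ℚ) := by push_cast; rfl
  have e2 : ((d : ℕ) : 𝓞 ℚ) = (((d : ℕ) : ℤ) : 𝓞 ℚ) := by push_cast; rfl
  rw [e1, e2, dvd_iff, ← ZMod.intCast_zmod_eq_zero_iff_dvd, Int.cast_sub, Int.cast_one, sub_eq_zero]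

lemma coprime_iff (a b : ℕ) : IsCoprime (idn a) (idn b) ↔ Nat.Coprime a b := by
  unfold idn
  rw [Ideal.isCoprime_span_singleton_iff, ← Nat.isCoprime_iff_coprime]
  constructor
  · intro h
    have h1 := h.map Rat.ringOfIntegersEquiv.toRingHom
    simpa using h1
  · intro h
    have h1 := h.map Rat.ringOfIntegersEquiv.symm.toRingHom
    simpa using h1

lemma ax_zero (x : ℚ) : ax (0 : InfinitePlace ℚ → ℝ) x = 1 := by
  unfold ax
  simp

/-! ### the trivial character -/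

open Classical in
/-- the trivial character -/
noncomputable def one0 : Ideal (𝓞 ℚ) →*₀ ℂ where
  toFun 𝔞 := if 𝔞 = 0 then 0 else 1
  map_zero' := by rw [if_pos rfl]
  map_one' := by rw [if_neg one_ne_zero]
  map_mul' 𝔞 𝔟 := by
    by_cases h1 : 𝔞 = 0
    · rw [h1, zero_mul, if_pos rfl, zero_mul]
    · by_cases h2 : 𝔟 = 0
      · rw [h2, mul_zero, if_pos rfl, mul_zero]
      · rw [if_neg h1, if_neg h2, if_neg (mul_ne_zero h1 h2), one_mul]

lemma one0_of {𝔞 : Ideal (𝓞 ℚ)} (h : 𝔞 ≠ ⊥) : one0 𝔞 = 1 := if_neg h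

lemma isHecke_one : IsHecke ℚ (⊤ : Ideal (𝓞 ℚ)) 0 one0 := by
  refine ⟨⟨top_ne_bot, fun 𝔞 h => ⟨fun _ => ?_, fun _ => ?_⟩, fun x _ hx => ?_⟩, fun 𝔤 h1 h2 => ?_⟩
  · rw [← Ideal.one_eq_top]
    exact isCoprime_one_right
  · rw [one0_of h]
    exact one_ne_zero
  · obtain ⟨z, rfl⟩ := ex_int x
    rw [tpos_iff] at hx
    have hne : Ideal.span {(z : 𝓞 ℚ)} ≠ ⊥ := by
      rw [Ne, Ideal.span_singleton_eq_bot]
      exact_mod_cast hx.ne'
    rw [one0_of hne, ax_zero]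
  · exfalso
    apply h2
    rw [← Ideal.one_eq_top] at h1 ⊢
    exact Ideal.isUnit_iff.mp (isUnit_of_dvd_one h1) |>.trans Ideal.one_eq_top.symm

/-! ### Dirichlet characters -/

lemma chi_zero {q : ℕ} (hq : 1 < q) (χ : DirichletCharacter ℂ q) : χ 0 = 0 := by
  have : Fact (1 < q) := ⟨hq⟩
  exact MulChar.map_nonunit χ not_isUnit_zero

lemma chi_ne {q : ℕ} (χ : DirichletCharacter ℂ q) (n : ℕ) :
    χ (n : ZMod q) ≠ 0 ↔ Nat.Coprime n q := by
  rw [← ZMod.isUnit_iff_coprime]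
  constructor
  · intro h
    by_contra h2
    exact h (MulChar.map_nonunit χ h2)
  · intro h
    exact (h.map χ).ne_zero

/-- the Dirichlet character `χ` as a character of ideals -/
noncomputable def psi {q : ℕ} (hq : 1 < q) (χ : DirichletCharacter ℂ q) : Ideal (𝓞 ℚ) →*₀ ℂ where
  toFun 𝔞 := χ ((Ideal.absNorm 𝔞 : ℕ) : ZMod q)
  map_zero' := by rw [map_zero, Nat.cast_zero, chi_zero hq]
  map_one' := by rw [map_one, Nat.cast_one, map_one]
  map_mul' 𝔞 𝔟 := by rw [map_mul, Nat.cast_mul, map_mul]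

lemma psi_idn {q : ℕ} (hq : 1 < q) (χ : DirichletCharacter ℂ q) (n : ℕ) :
    psi hq χ (idn n) = χ (n : ZMod q) := by
  show χ ((Ideal.absNorm (idn n) : ℕ) : ZMod q) = _
  rw [absNorm_idn]

lemma isHecke_psi {q : ℕ} [NeZero q] (hq : 1 < q) {χ : DirichletCharacter ℂ q}
    (hχ : χ.IsPrimitive) : IsHecke ℚ (idn q) 0 (psi hq χ) := by
  have hq0 : 0 < q := by omega
  refine ⟨⟨?_, fun 𝔞 _ => ?_, fun x hx hp => ?_⟩, fun 𝔤 h1 h2 => ?_⟩
  · rw [← idn_zero]
    intro h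
    exact hq0.ne' (idn_inj h)
  · obtain ⟨n, rfl⟩ := exists_idn 𝔞
    rw [psi_idn, coprime_iff, chi_ne]
  · obtain ⟨z, rfl⟩ := ex_int x
    rw [tpos_iff] at hp
    rw [sub_one_mem_iff] at hx
    obtain ⟨n, rfl⟩ := Int.eq_ofNat_of_zero_le hp.le
    rw [Int.cast_natCast] at hx
    have e : Ideal.span {(((n : ℕ) : ℤ) : 𝓞 ℚ)} = idn n := by
      unfold idn
      rw [Int.cast_natCast]
    rw [e, psi_idn, hx, map_one, ax_zero]
  · obtain ⟨d, rfl⟩ := exists_idn 𝔤
    have hd : d ∣ q := by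
      have := map_dvd Ideal.absNorm h1
      rwa [absNorm_idn, absNorm_idn] at this
    have hne : d ≠ q := fun h => h2 (by rw [h])
    have h3 : ¬ χ.FactorsThrough d := by
      intro h
      have h4 : χ.conductor ∣ d := DirichletCharacter.conductor_dvd_of_mem_conductorSet χ h
      have h5 : χ.conductor = q := hχ
      rw [h5] at h4
      exact hne (Nat.dvd_antisymm hd h4)
    rw [DirichletCharacter.factorsThrough_iff_ker_unitsMap hd, SetLike.not_le_iff_exists] at h3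
    obtain ⟨u, hu1, hu2⟩ := h3
    have hn : (((u : ZMod q).val : ℕ) : ZMod q) = u := ZMod.natCast_zmod_val _
    have : Fact (1 < q) := ⟨hq⟩
    have hpos : 0 < (u : ZMod q).val := by
      rw [Nat.pos_iff_ne_zero]
      intro h0
      rw [h0, Nat.cast_zero] at hn
      exact u.ne_zero hn.symm
    have hcop : Nat.Coprime (u : ZMod q).val q := by
      rw [← ZMod.isUnit_iff_coprime, hn]
      exact u.isUnit
    have hmod : (((u : ZMod q).val : ℕ) : ZMod d) = 1 := by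
      have h6 := congrArg (fun v : (ZMod d)ˣ => (v : ZMod d)) (MonoidHom.mem_ker.mp hu1)
      simp only [ZMod.unitsMap_val, Units.val_one] at h6
      rw [← hn, ZMod.cast_natCast hd] at h6
      exact h6
    refine ⟨((((u : ZMod q).val : ℕ) : ℤ) : 𝓞 ℚ), ?_, ?_, ?_, ?_⟩
    · rw [sub_one_mem_iff, Int.cast_natCast]
      exact hmod
    · rw [tpos_iff]
      exact_mod_cast hpos
    · have e : Ideal.span {((((u : ZMod q).val : ℕ) : ℤ) : 𝓞 ℚ)} = idn (u : ZMod q).val := by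
        unfold idn
        rw [Int.cast_natCast]
      rw [e, coprime_iff]
      exact hcop
    · have e : Ideal.span {((((u : ZMod q).val : ℕ) : ℤ) : 𝓞 ℚ)} = idn (u : ZMod q).val := by
        unfold idn
        rw [Int.cast_natCast]
      rw [e, psi_idn, hn, ax_zero]
      intro h7
      apply hu2
      rw [MonoidHom.mem_ker]
      apply Units.ext
      rw [MulChar.coe_toUnitHom, Units.val_one]
      exact h7

lemma ne_one {q : ℕ} [NeZero q] (hq : 1 < q) {χ : DirichletCharacter ℂ q} (hχ : χ.IsPrimitive) : χ ≠ 1 := by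
  intro h
  rw [h, DirichletCharacter.IsPrimitive, DirichletCharacter.conductor_one] at hχ
  omega

/-- the Dirichlet series -/
lemma LI_eq {q : ℕ} [NeZero q] (hq : 1 < q) (χ : DirichletCharacter ℂ q)
    {ψ : Ideal (𝓞 ℚ) →*₀ ℂ} (hψ : ∀ n : ℕ, ψ (idn n) = χ (n : ZMod q)) {s : ℂ} (hs : 1 < s.re) :
    DirichletCharacter.LFunction χ s = LI ψ s := by
  rw [DirichletCharacter.LFunction_eq_LSeries χ hs]
  unfold LI LSeries
  have hinj : Function.Injective idn := fun a b h => idn_inj h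
  rw [← (Equiv.ofBijective idn ⟨hinj, exists_idn⟩).tsum_eq]
  refine tsum_congr fun n => ?_
  show LSeries.term (fun x => χ (x : ZMod q)) s n = ψ (idn n) * ((Ideal.absNorm (idn n) : ℕ) : ℂ) ^ (-s)
  rw [hψ, absNorm_idn]
  rcases Nat.eq_zero_or_pos n with h | h
  · rw [h, LSeries.term_zero, Nat.cast_zero, chi_zero hq, zero_mul]
  · rw [LSeries.term_of_ne_zero h.ne', Complex.cpow_neg, div_eq_mul_inv]

end Pool.Agent.N802.LX
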